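import Pool.Agent.Helper50.HY.Stmts
import Pool.Agent.Helper21.CF.TLS

/-!
# HY, row KLB: lower bound of the kinetic energy of an approximate ground state
-/

set_option autoImplicit false

namespace Pool.Agent.Helper89.HY

open MeasureTheory Filter Pool.Agent.Helper95.PW Pool.Agent.Helper95.LN Pool.Agent.Helper95.CF
open Pool.Agent.Helper21.LN Pool.Agent.Helper21.CF Pool.Agent.Helper50.HY

/-- the pointwise bound -/
theorem klb_pt (h1 : ST_ES1X) (hK : ST_KK) (z d : ℝ) (hz : 0 ≤ z) (hd : 0 < d)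
    (n M : ℕ) (X : Fin M → R3) (Z : Fin M → ℝ) (x : Cf n) (hS : Sep X d)
    (hN : Nuc n Z) (hZ : ∀ j, Z j ≤ z) (hx : Dist X x) :
    -(8 * (1 + z) / d * n + z * ∑ k, near1 X d (x k)) ≤ Vc X Z x := by
  have h2 := h1 z d hz hd n M X Z x hS hN hZ hx
  have h3 := tbl_Dn (d / 8) X Z x
  have h4 := tbl_Rem hK (d / 8) (by positivity) X x hx
  linarith

/-- the integrated bound -/
theorem klb_int (h1 : ST_ES1X) (h2 : ST_AED) (h7 : ST_INTM) (hK : ST_KK)
    (z d : ℝ) (hz : 0 ≤ z) (hd : 0 < d)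
    (n M : ℕ) (X : Fin M → R3) (Z : Fin M → ℝ) (u : Wf n) (hS : Sep X d)
    (hN : Nuc n Z) (hZ : ∀ j, Z j ≤ z) (hu : Sm u)
    (hint : ∀ s, Integrable (fun x : Cf n => (∑ k, near1 X d (x k)) * u s x ^ 2)) :
    kin u ≤ QM X Z u + nucR X Z * Helper95.PW.sq u +
      (8 * (1 + z) / d * n) * Helper95.PW.sq u + z * one (near1 X d) u := by
  obtain ⟨C, hC⟩ : ∃ C : ℝ, C = 8 * (1 + z) / d := ⟨_, rfl⟩
  have H := klb_pt h1 hK z d hz hd n M X Z
  rw [← hC] at H ⊢
  have key : ∀ s, -((C * n) * (∫ x, u s x ^ 2) +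
      z * ∫ x, (∑ k, near1 X d (x k)) * u s x ^ 2) ≤
      (∫ x, rep x * u s x ^ 2) - (∫ x, (∑ k, pot X Z (x k)) * u s x ^ 2) +
        nucR X Z * ∫ x, u s x ^ 2 := by
    intro s
    obtain ⟨i1, i2, _, _⟩ := h7 n M X Z (u s) (u s) (hu s).1 (hu s).2 (hu s).1 (hu s).2
    have e1 : (fun x : Cf n => (∑ k, pot X Z (x k)) * (u s x * u s x)) =
        fun x : Cf n => (∑ k, pot X Z (x k)) * u s x ^ 2 := by
      funext x; rw [pow_two]
    have e2 : (fun x : Cf n => rep x * (u s x * u s x)) =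
        fun x : Cf n => rep x * u s x ^ 2 := by
      funext x; rw [pow_two]
    rw [e1] at i1
    rw [e2] at i2
    have i3 : Integrable (fun x : Cf n => u s x ^ 2) :=
      (com_memLp _ (hu s).1 (hu s).2).integrable_sq
    have i4 := hint s
    have j1 : Integrable (fun x : Cf n => rep x * u s x ^ 2 -
        (∑ k, pot X Z (x k)) * u s x ^ 2) := i2.sub i1
    have j2 : Integrable (fun x : Cf n => nucR X Z * u s x ^ 2) := i3.const_mul _
    have j3 : Integrable (fun x : Cf n => (C * n) * u s x ^ 2) := i3.const_mul _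
    have j4 : Integrable (fun x : Cf n => z * ((∑ k, near1 X d (x k)) * u s x ^ 2)) :=
      i4.const_mul _
    rw [← integral_const_mul, ← integral_const_mul, ← integral_add j3 j4, ← integral_neg,
      ← integral_sub i2 i1, ← integral_const_mul, ← integral_add j1 j2]
    refine integral_mono_ae (j3.add j4).neg (j1.add j2) ?_
    filter_upwards [h2 n M X] with x hx
    have h4 := H x hS hN hZ hx
    have h5 := mul_le_mul_of_nonneg_right h4 (sq_nonneg (u s x))
    unfold Vc at h5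
    show -((C * n) * u s x ^ 2 + z * ((∑ k, near1 X d (x k)) * u s x ^ 2)) ≤
      rep x * u s x ^ 2 - (∑ k, pot X Z (x k)) * u s x ^ 2 + nucR X Z * u s x ^ 2
    linarith
  have hsum := Finset.sum_le_sum fun s (_ : s ∈ Finset.univ) => key s
  rw [Finset.sum_neg_distrib, Finset.sum_add_distrib, Finset.sum_add_distrib,
    Finset.sum_sub_distrib, ← Finset.mul_sum, ← Finset.mul_sum, ← Finset.mul_sum] at hsum
  have e3 : QM X Z u = kin u + pair u - one (pot X Z) u := rfl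
  have e4 : pair u = ∑ s, ∫ x, rep x * u s x ^ 2 := rfl
  have e5 : one (pot X Z) u = ∑ s, ∫ x, (∑ k, pot X Z (x k)) * u s x ^ 2 := rfl
  have e6 : Helper95.PW.sq u = ∑ s, ∫ x, u s x ^ 2 := rfl
  have e7 : one (near1 X d) u = ∑ s, ∫ x, (∑ k, near1 X d (x k)) * u s x ^ 2 := rfl
  rw [← e4, ← e5, ← e6, ← e7] at hsum
  linarith

/-- row KLB -/
theorem KLB (h1 : ST_ES1X) (h2 : ST_KK) (h3 : ST_AED) (h4 : ST_CLS) (h5 : ST_QHM)
    (h6 : ST_INTM) : ST_KLB := by
  obtain ⟨C, hC, H⟩ := h4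
  refine ⟨40000 + 3000 * C, 4 * (1 / 2500) * (1 / 2500), by positivity, by norm_num, ?_⟩
  intro n M X E d u hn hdd hN hS hE hu hsq1 hsq2 hres
  have hn1 : (1 : ℝ) ≤ n := by exact_mod_cast hn
  have hd0 : 0 < d := by
    have : 0 ≤ 3000 * C := by positivity
    linarith
  have hd1 : 1 ≤ d := by
    have : 0 ≤ 3000 * C := by positivity
    linarith
  obtain ⟨hint, hcl⟩ := H n M X d (9 / 10) u hd0 (by norm_num) hS hu
  have a1 := klb_int h1 h3 h6 h2 1 d zero_le_one hd0 n M X (fun _ => 1) u hS hN (fun _ => le_rfl)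
    hu hint
  have a2 := tls_Q h5 h6 X (fun _ => 1) E (1 / 2500) (by norm_num) u hu
  obtain ⟨S, hSd⟩ : ∃ S : ℝ, S = Helper95.PW.sq u := ⟨_, rfl⟩
  rw [← hSd] at a1 a2 hcl hsq1 hsq2
  have b1 : (E + nucR X (fun _ => (1 : ℝ))) * S ≤ -(249 / 1000 * n) * S :=
    mul_le_mul_of_nonneg_right hE (by linarith)
  have hnS : 0 ≤ n * S := mul_nonneg (by linarith) (by linarith)
  have b2 : 8 * (1 + 1) / d ≤ 1 / 2500 := by
    rw [div_le_iff₀ hd0]
    have : 0 ≤ 3000 * C := by positivity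
    linarith
  have b3 : 10 / 9 * (C / d ^ 2) ≤ 1 / 2500 := by
    rw [← mul_div_assoc, div_le_iff₀ (by positivity)]
    have : d ≤ d ^ 2 := by nlinarith
    linarith
  have b4 := mul_le_mul_of_nonneg_right b2 hnS
  have b5 := mul_le_mul_of_nonneg_right b3 hnS
  have b6 : 1 / (4 * (1 / 2500)) * resM X (fun _ => (1 : ℝ)) E u ≤ 1 / 2500 := by
    calc 1 / (4 * (1 / 2500)) * resM X (fun _ => (1 : ℝ)) E u
        ≤ 1 / (4 * (1 / 2500)) * (4 * (1 / 2500) * (1 / 2500)) :=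
          mul_le_mul_of_nonneg_left hres (by norm_num)
      _ = 1 / 2500 := by norm_num
  have b7 : S ≤ n * S := by nlinarith
  have b8 : (n : ℝ) * (999 / 1000) ≤ n * S := mul_le_mul_of_nonneg_left hsq1 (by positivity)
  have b9 : 9 / 10 * one (near1 X d) u ≤ kin u + ((9 / 10) ^ 2 / 4) * (n * S) +
      C / d ^ 2 * (n * S) := by
    refine hcl.trans (le_of_eq ?_)
    ring
  have b10 : (8 * (1 + 1) / d * n) * S = 8 * (1 + 1) / d * (n * S) := by ring
  rw [b10] at a1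
  have b11 : -(249 / 1000 * (n : ℝ)) * S = -(249 / 1000) * (n * S) := by ring
  rw [b11] at b1
  have b12 : 10 / 9 * (C / d ^ 2) * (n * S) = 10 / 9 * (C / d ^ 2 * (n * S)) := by ring
  rw [b12] at b5
  nlinarith [a1, a2, b1, b4, b5, b6, b7, b8, b9]

end Pool.Agent.Helper89.HY
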