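import Pool.Agent.Helper50.HY.Stmts2
import Pool.Agent.Helper89.HY.KLB

/-!
# HY, row KLG: sharp lower bound of the kinetic energy of an approximate ground state
-/

set_option autoImplicit false

namespace Pool.Agent.Helper89.HY

open MeasureTheory Filter Pool.Agent.Helper95.PW Pool.Agent.Helper95.LN Pool.Agent.Helper95.CF
open Pool.Agent.Helper21.LN Pool.Agent.Helper21.CF Pool.Agent.Helper50.HY

/-- the numbers -/
theorem klg_num {n S K O R E m ρ η δ t1 t2 : ℝ} (hn : 1 ≤ n) (hm : 0 < m) (hm1 : m ≤ 1 / 2)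
    (hmd : m ≤ 2 * δ) (hρ : ρ = m ^ 2 / 80) (hη0 : 0 < η) (hη : η ≤ ρ)
    (hS1 : 1 - η ≤ S) (hS2 : S ≤ 1 + η) (ht1 : t1 ≤ ρ) (ht2 : t2 ≤ (1 - m) * ρ)
    (hR : R ≤ ρ) (hE : E ≤ -((1 / 4 - η) * n))
    (g1 : K ≤ E * S + ρ * S + R + t1 * (n * S) + O)
    (g2 : (1 - m) * O ≤ K + (1 - m) ^ 2 / 4 * (n * S) + t2 * (n * S)) :
    (1 / 4 - δ) * n ≤ K := by
  have hρ0 : 0 < ρ := by rw [hρ]; positivity
  have hρ1 : ρ ≤ 1 / 320 := by rw [hρ]; nlinarith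
  have hS0 : 0 ≤ S := by linarith
  obtain ⟨W, hW⟩ : ∃ W : ℝ, W = n * S := ⟨_, rfl⟩
  rw [← hW] at g1 g2
  have hW0 : 0 ≤ W := by rw [hW]; positivity
  have hSW : S ≤ W := by rw [hW]; nlinarith
  have hW1 : n * (1 - η) ≤ W := by rw [hW]; exact mul_le_mul_of_nonneg_left hS1 (by linarith)
  have hW2 : W ≤ n * 2 := by rw [hW]; exact mul_le_mul_of_nonneg_left (by linarith) (by linarith)
  have e1 : E * S ≤ -((1 / 4 - η) * W) := by
    calc E * S ≤ -((1 / 4 - η) * n) * S := mul_le_mul_of_nonneg_right hE hS0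
      _ = -((1 / 4 - η) * W) := by rw [hW]; ring
  have e2 : ρ * S ≤ ρ * W := mul_le_mul_of_nonneg_left hSW hρ0.le
  have e3 : t1 * W ≤ ρ * W := mul_le_mul_of_nonneg_right ht1 hW0
  have e4 : t2 * W ≤ (1 - m) * ρ * W := mul_le_mul_of_nonneg_right ht2 hW0
  have e5 : ρ ≤ ρ * n := by nlinarith
  -- `K ≤ -(1/4 - η) W + 2 ρ W + ρ n + O`
  have g3 : K ≤ -((1 / 4 - η) * W) + 2 * (ρ * W) + ρ * n + O := by linarith
  have g4 := mul_le_mul_of_nonneg_left g3 (by linarith : (0 : ℝ) ≤ 1 - m)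
  -- `m K ≥ (1 - m) (m / 4 W - η W - 3 ρ W - ρ n)`
  have g5 : (1 - m) * (m / 4 * W - η * W - 3 * (ρ * W) - ρ * n) ≤ m * K := by
    have h1 : (1 - m) * (-((1 / 4 - η) * W) + 2 * (ρ * W) + ρ * n + O) =
        (1 - m) * (-((1 / 4 - η) * W) + 2 * (ρ * W) + ρ * n) + (1 - m) * O := by ring
    rw [h1] at g4
    have h2 : (1 - m) * K = K - m * K := by ring
    rw [h2] at g4
    have h3 : (1 - m) * (m / 4 * W - η * W - 3 * (ρ * W) - ρ * n) =
        -((1 - m) * (-((1 / 4 - η) * W) + 2 * (ρ * W) + ρ * n)) - (1 - m) ^ 2 / 4 * W -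
          (1 - m) * ρ * W := by ring
    rw [h3]
    linarith
  have e6 : η * W ≤ 2 * (ρ * n) := by
    calc η * W ≤ ρ * W := mul_le_mul_of_nonneg_right hη hW0
      _ ≤ ρ * (n * 2) := mul_le_mul_of_nonneg_left hW2 hρ0.le
      _ = 2 * (ρ * n) := by ring
  have e7 : ρ * W ≤ 2 * (ρ * n) := by
    calc ρ * W ≤ ρ * (n * 2) := mul_le_mul_of_nonneg_left hW2 hρ0.le
      _ = 2 * (ρ * n) := by ring
  have e8 : m / 4 * n - ρ * n ≤ m / 4 * W := by
    have h1 : m / 4 * (n * (1 - η)) ≤ m / 4 * W := mul_le_mul_of_nonneg_left hW1 (by positivity)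
    have h2 : m / 4 * (n * (1 - η)) = m / 4 * n - m / 4 * (η * n) := by ring
    have h3 : m / 4 * (η * n) ≤ 1 * (ρ * n) := by
      refine mul_le_mul (by linarith) (mul_le_mul_of_nonneg_right hη (by linarith)) ?_ zero_le_one
      positivity
    linarith
  have g6 : (1 - m) * (m / 4 * n - 10 * (ρ * n)) ≤ m * K := by
    refine le_trans (mul_le_mul_of_nonneg_left ?_ (by linarith)) g5
    linarith
  have g7 : (1 - m) * (m / 4 * n - 10 * (ρ * n)) = m * ((1 - m) * (1 / 4 - m / 8) * n) := by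
    rw [hρ]; ring
  rw [g7] at g6
  have g8 : (1 - m) * (1 / 4 - m / 8) * n ≤ K := le_of_mul_le_mul_left g6 hm
  refine le_trans (mul_le_mul_of_nonneg_right ?_ (by linarith)) g8
  nlinarith

/-- row KLG -/
theorem KLG (h1 : ST_ES1X) (h2 : ST_KK) (h3 : ST_AED) (h4 : ST_CLS) (h5 : ST_QHM)
    (h6 : ST_INTM) : ST_KLG := by
  obtain ⟨C, hC, H⟩ := h4
  intro δ hδ
  obtain ⟨m, hm⟩ : ∃ m : ℝ, m = min (2 * δ) (1 / 2) := ⟨_, rfl⟩
  have hm0 : 0 < m := by rw [hm]; exact lt_min (by linarith) (by norm_num)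
  have hm1 : m ≤ 1 / 2 := by rw [hm]; exact min_le_right _ _
  have hm2 : m ≤ 2 * δ := by rw [hm]; exact min_le_left _ _
  obtain ⟨ρ, hρ⟩ : ∃ ρ : ℝ, ρ = m ^ 2 / 80 := ⟨_, rfl⟩
  have hρ0 : 0 < ρ := by rw [hρ]; positivity
  have hρ1 : ρ ≤ 1 / 320 := by rw [hρ]; nlinarith
  have hη : 4 * ρ ^ 2 ≤ ρ := by nlinarith
  refine ⟨1 + 16 / ρ + 2 * C / ρ, 4 * ρ ^ 2, ?_, by positivity, ?_⟩
  · have : 0 ≤ 16 / ρ + 2 * C / ρ := by positivity
    linarith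
  intro n M X E d u hn hdd hN hS hE hu hsq1 hsq2 hres
  have hn1 : (1 : ℝ) ≤ n := by exact_mod_cast hn
  have q1 : 0 ≤ 16 / ρ := by positivity
  have q2 : 0 ≤ 2 * C / ρ := by positivity
  have hd1 : 1 ≤ d := by linarith
  have hd0 : 0 < d := by linarith
  obtain ⟨hint, hcl⟩ := H n M X d (1 - m) u hd0 (by linarith) hS hu
  have a1 := klb_int h1 h3 h6 h2 1 d zero_le_one hd0 n M X (fun _ => 1) u hS hN (fun _ => le_rfl)
    hu hint
  have a2 := tls_Q h5 h6 X (fun _ => 1) E ρ hρ0 u hu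
  have b2 : 8 * (1 + 1) / d ≤ ρ := by
    rw [div_le_iff₀ hd0]
    have : 16 / ρ ≤ d := by linarith
    rw [div_le_iff₀ hρ0] at this
    linarith
  have b3 : C / d ^ 2 ≤ (1 - m) * ρ := by
    rw [div_le_iff₀ (by positivity)]
    have h7 : 2 * C / ρ ≤ d := by linarith
    rw [div_le_iff₀ hρ0] at h7
    have h8 : d ≤ d ^ 2 := by nlinarith
    have h9 : ρ * d ≤ ρ * d ^ 2 := mul_le_mul_of_nonneg_left h8 hρ0.le
    have h10 : 1 / 2 * (ρ * d ^ 2) ≤ (1 - m) * (ρ * d ^ 2) :=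
      mul_le_mul_of_nonneg_right (by linarith) (by positivity)
    have h11 : (1 - m) * ρ * d ^ 2 = (1 - m) * (ρ * d ^ 2) := by ring
    rw [h11]
    linarith
  have b6 : 1 / (4 * ρ) * resM X (fun _ => (1 : ℝ)) E u ≤ ρ := by
    calc 1 / (4 * ρ) * resM X (fun _ => (1 : ℝ)) E u ≤ 1 / (4 * ρ) * (4 * ρ ^ 2) :=
          mul_le_mul_of_nonneg_left hres (by positivity)
      _ = ρ := by field_simp
  refine klg_num (n := (n : ℝ)) (S := Helper95.PW.sq u) (O := one (near1 X d) u)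
    (R := 1 / (4 * ρ) * resM X (fun _ => (1 : ℝ)) E u) (E := E + nucR X (fun _ => (1 : ℝ)))
    (m := m) (ρ := ρ) (η := 4 * ρ ^ 2) (t1 := 8 * (1 + 1) / d)
    (t2 := C / d ^ 2) hn1 hm0 hm1 hm2 hρ (by positivity) hη hsq1 hsq2 b2 b3 b6 hE ?_ ?_
  · linarith
  · refine hcl.trans (le_of_eq ?_)
    ring

end Pool.Agent.Helper89.HY
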